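import Pool.Agent.N855.TwistC

/-!
# Quadratic twists of an odd Maass form vanish at the centre
-/

set_option autoImplicit false

namespace Pool.Agent.N855.Twist

open MeasureTheory Complex Set Filter Topology MatrixGroups
open UpperHalfPlane hiding I
open scoped ContDiff
open Pool.Agent.N849.Bessel (W)

theorem summable_Wk (ν : ℂ) (κ : ℕ) (y : ℝ) (hy : 0 < y) :
    Summable fun n : ℕ => ‖Wk ν κ (n * y)‖ := by
  obtain ⟨D, hD, h⟩ := Wk_decay ν κ 2
  have h1 : Summable fun n : ℕ => D * (y ^ 2)⁻¹ * ((n : ℝ) ^ 2)⁻¹ :=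
    (Real.summable_nat_pow_inv.2 (by norm_num)).mul_left _
  refine Summable.of_norm_bounded_eventually_nat h1 ?_
  obtain ⟨N, hN⟩ := exists_nat_ge (1 / y)
  filter_upwards [eventually_ge_atTop N] with n hn
  have h2 : 1 ≤ n * y := by
    have : 1 / y ≤ n := hN.trans (by exact_mod_cast hn)
    rwa [div_le_iff₀ hy] at this
  rw [norm_norm]
  refine (h _ h2).trans (le_of_eq ?_)
  rw [mul_pow, mul_inv]
  ring

section expansion

variable {φ : ℍ → ℂ} {ν : ℂ} {C : ℕ → ℂ}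
  (hsm : ContDiffOn ℝ ∞ (fun ζ : ℂ => φ (ofComplex ζ)) {ζ | 0 < ζ.im})
  (hexp : ∀ x y : ℝ, 0 < y → HasSum (fun n : ℕ => C n * W ν (n * y) *
        (2 * Complex.I * Real.sin (2 * Real.pi * n * x))) (φ (ofComplex (x + y * Complex.I))))

include hsm hexp in
theorem De_exp (B : ℝ) (hB : ∀ n, ‖C n‖ ≤ B) (x y : ℝ) (hy : 0 < y) :
    HasSum (fun n : ℕ => C n * Wk ν 1 (n * y) *
      (2 * Real.pi * I * (2 * (Real.cos (2 * Real.pi * n * x) : ℝ)))) (y * De φ (x + y * I)) := by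
  have hB0 : 0 ≤ B := (norm_nonneg _).trans (hB 0)
  have hy0 : (y : ℂ) ≠ 0 := by exact_mod_cast hy.ne'
  have hsumm : Summable fun n : ℕ => 4 * Real.pi * B * y⁻¹ * ‖Wk ν 1 (n * y)‖ :=
    (summable_Wk ν 1 y hy).mul_left _
  obtain ⟨g, hg⟩ : ∃ g : ℕ → ℝ → ℂ, g = fun n t => C n * W ν (n * y) *
        (2 * Complex.I * Real.sin (2 * Real.pi * n * t)) := ⟨_, rfl⟩
  obtain ⟨g', hg'⟩ : ∃ g' : ℕ → ℝ → ℂ, g' = fun n t => C n * W ν (n * y) *
        (2 * Complex.I * (2 * Real.pi * n * Real.cos (2 * Real.pi * n * t) : ℝ)) := ⟨_, rfl⟩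
  have hder : ∀ n t, HasDerivAt (g n) (g' n t) t := by
    intro n t
    rw [hg, hg']
    have h1 : HasDerivAt (fun t : ℝ => 2 * Real.pi * n * t) (2 * Real.pi * n) t := by
      simpa using (hasDerivAt_id t).const_mul (2 * Real.pi * n)
    have h2 := (h1.sin.ofReal_comp.const_mul (2 * Complex.I)).const_mul (C n * W ν (n * y))
    convert! h2 using 1
    push_cast
    ring
  have hbd : ∀ n t, ‖g' n t‖ ≤ 4 * Real.pi * B * y⁻¹ * ‖Wk ν 1 (n * y)‖ := by
    intro n t
    rw [hg', Wk]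
    simp only [norm_mul, Complex.norm_I, Complex.norm_real, pow_one, Complex.norm_ofNat]
    have h1 : ‖(2 : ℝ)‖ = 2 := by norm_num
    have h2 : ‖Real.pi‖ = Real.pi := Real.norm_of_nonneg Real.pi_pos.le
    have h3 : ‖(n : ℝ)‖ = n := Real.norm_of_nonneg (Nat.cast_nonneg n)
    have h4 : ‖y‖ = y := Real.norm_of_nonneg hy.le
    have h5 : ‖Real.cos (2 * Real.pi * n * t)‖ ≤ 1 := Real.abs_cos_le_one _
    rw [h1, h2, h3, h4]
    have h6 : 4 * Real.pi * B * y⁻¹ * (n * y * ‖W ν (n * y)‖) =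
        B * ‖W ν (n * y)‖ * (2 * 1 * (2 * Real.pi * n * 1)) := by
      field_simp
      ring
    rw [h6]
    gcongr
    exact hB n
  have hs0 : Summable fun n => g n 0 := by
    rw [hg]
    exact (hexp 0 y hy).summable
  have h1 := hasDerivAt_tsum hsumm hder hbd hs0 x
  have h2 : (fun t : ℝ => ∑' n, g n t) = fun t : ℝ => fe φ (t + y * I) := by
    funext t
    rw [hg]
    exact (hexp t y hy).tsum_eq
  rw [h2] at h1
  have h3 : HasDerivAt (fun t : ℝ => (t : ℂ) + y * I) ((1 : ℝ) : ℂ) x := by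
    have := ((hasDerivAt_id x).ofReal_comp).add_const ((y : ℂ) * I)
    simpa using this
  have h4 := fe_chain hsm _ _ x h3 (by simpa using hy)
  have h5 := h4.unique h1
  rw [Complex.ofReal_one, one_mul] at h5
  have h6 : Summable fun n => g' n x := Summable.of_norm_bounded hsumm fun n => hbd n x
  have h7 := (h6.hasSum).mul_left (y : ℂ)
  rw [← h5] at h7
  convert! h7 using 1
  funext n
  rw [hg', Wk]
  push_cast
  ring

end expansion

section continuity

variable {φ : ℍ → ℂ}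
  (hsm : ContDiffOn ℝ ∞ (fun ζ : ℂ => φ (ofComplex ζ)) {ζ | 0 < ζ.im})

theorem cont_line (x : ℝ) : ContinuousOn (fun y : ℝ => (x : ℂ) + y * I) (Ioi 0) := by
  fun_prop

theorem maps_line (x : ℝ) : MapsTo (fun y : ℝ => (x : ℂ) + y * I) (Ioi 0) {ζ : ℂ | 0 < ζ.im} := by
  intro y hy
  simpa using hy

include hsm in
theorem cont_fe (x : ℝ) : ContinuousOn (fun y : ℝ => fe φ (x + y * I)) (Ioi 0) :=
  hsm.continuousOn.comp (cont_line x) (maps_line x)

include hsm in
theorem cont_De (x : ℝ) : ContinuousOn (fun y : ℝ => De φ (x + y * I)) (Ioi 0) := by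
  have h1 : ContinuousOn (fderiv ℝ (fe φ)) {ζ : ℂ | 0 < ζ.im} :=
    hsm.continuousOn_fderiv_of_isOpen isOpen_uhp (by simp)
  have h2 : ContinuousOn (De φ) {ζ : ℂ | 0 < ζ.im} := h1.clm_apply continuousOn_const
  exact h2.comp (cont_line x) (maps_line x)

end continuity

/-- **Quadratic twists of an odd Maass form of level one vanish at the central point.** -/
theorem twist (φ : ℍ → ℂ) (hinv : ∀ (γ : SL(2, ℤ)) (z : ℍ), φ (γ • z) = φ z)
    (hodd : ∀ z : ℍ, φ (J • z) = - φ z)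
    (hsm : ContDiffOn ℝ ∞ (fun ζ : ℂ => φ (ofComplex ζ)) {ζ | 0 < ζ.im})
    (ν : ℂ) (C : ℕ → ℂ) (B : ℝ) (hB : ∀ n, ‖C n‖ ≤ B) (hC0 : C 0 = 0)
    (hexp : ∀ x y : ℝ, 0 < y → HasSum (fun n : ℕ => C n * W ν (n * y) *
        (2 * Complex.I * Real.sin (2 * Real.pi * n * x))) (φ (ofComplex (x + y * Complex.I))))
    (q : ℕ) [NeZero q] (χ : DirichletCharacter ℂ q) (hprim : χ.IsPrimitive) (hquad : χ ^ 2 = 1) :
    ∃ F : ℂ → ℂ, Differentiable ℂ F ∧
      (∀ s : ℂ, 3 / 2 < s.re → HasSum (fun n : ℕ => (Real.sqrt n : ℂ) * C n * χ n * (n : ℂ) ^ (-s)) (F s)) ∧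
      F (1 / 2) = 0 := by
  have hq : 0 < q := Nat.pos_of_ne_zero (NeZero.ne q)
  have hq0 : (q : ℂ) ≠ 0 := by exact_mod_cast hq.ne'
  have hqr : (0 : ℝ) < q := by exact_mod_cast hq
  have hB0 : 0 ≤ B := (norm_nonneg _).trans (hB 0)
  set τ : ℂ := gaussSum χ (ZMod.stdAddChar (N := q)) with hτ
  have hτ0 : τ ≠ 0 := tau_ne_zero χ hprim
  obtain ⟨c, hcd⟩ : ∃ c : ℕ → ℂ, c = fun n => C n * χ n := ⟨_, rfl⟩
  have hc0 : c 0 = 0 := by
    rw [hcd]
    simp [hC0]
  have hcB : ∀ n, ‖c n‖ ≤ B := by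
    intro n
    rw [hcd]
    simp only
    rw [norm_mul]
    calc ‖C n‖ * ‖χ n‖ ≤ B * 1 := by
          gcongr
          · exact hB n
          · exact DirichletCharacter.norm_le_one χ _
      _ = B := mul_one B
  have main : ∀ (κ : ℕ) (P : ℝ → ℂ), ContinuousOn P (Ioi 0) →
      (∀ y : ℝ, 0 < y → P (1 / ((q : ℝ) ^ 2 * y)) = - P y) →
      (∀ y : ℝ, 0 < y → HasSum (fun n : ℕ => c n * Wk ν κ (n * y)) (P y)) →
      ∃ F : ℂ → ℂ, Differentiable ℂ F ∧
      (∀ s : ℂ, 3 / 2 < s.re → HasSum (fun n : ℕ => (Real.sqrt n : ℂ) * C n * χ n * (n : ℂ) ^ (-s)) (F s)) ∧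
      F (1 / 2) = 0 := by
    intro κ P h1 h2 h3
    obtain ⟨F, hF1, hF2, hF3⟩ := analytic_part ν κ c B hcB hc0 q hq P h1 h2 h3
    refine ⟨F, hF1, fun s hs => ?_, hF3⟩
    convert! hF2 s hs using 1
    funext n
    rw [hcd]
    ring
  rcases DirichletCharacter.even_or_odd χ with hχ | hχ
  · -- even characters
    obtain ⟨G, hG⟩ : ∃ G : ℝ → ℂ, G = fun y : ℝ => ∑ a : ZMod q, χ a *
      ((y : ℂ) * De φ (((a.val : ℝ) / q : ℝ) + y * I)) := ⟨_, rfl⟩
    have hk : 4 * Real.pi * I * τ ≠ 0 := by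
      have h1 : (Real.pi : ℂ) ≠ 0 := by exact_mod_cast Real.pi_ne_zero
      exact mul_ne_zero (mul_ne_zero (mul_ne_zero (by norm_num) h1) I_ne_zero) hτ0
    refine main 1 (fun y => G y / (4 * Real.pi * I * τ)) ?_ ?_ ?_
    · refine ContinuousOn.div_const ?_ _
      rw [hG]
      refine continuousOn_finsetSum _ fun a _ => continuousOn_const.mul
        (ContinuousOn.mul (by fun_prop) (cont_De hsm _))
    · intro y hy
      rw [← neg_div]
      congr 1
      rw [hG]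
      refine sum_inv χ hquad _ _ fun u => ?_
      obtain ⟨b, hb⟩ := unit_det u
      have h1 := De_inv hsm hinv _ b _ q hq hb y hy
      have h2 := De_odd hsm hodd ((((u⁻¹ : (ZMod q)ˣ) : ZMod q).val : ℝ) / q) y hy
      push_cast at h1 h2 ⊢
      rw [h1, h2]
      have hy0 : (y : ℂ) ≠ 0 := by exact_mod_cast hy.ne'
      field_simp
    · intro y hy
      have h1 : HasSum (fun n : ℕ => ∑ a : ZMod q, χ a * (C n * Wk ν 1 (n * y) *
          (2 * Real.pi * I * (2 * (Real.cos (2 * Real.pi * n * ((a.val : ℝ) / q)) : ℝ))))) (G y) := by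
        rw [hG]
        exact hasSum_sum fun a _ => (De_exp hsm hexp B hB _ y hy).mul_left _
      have h2 : ∀ n : ℕ, ∑ a : ZMod q, χ a * (C n * Wk ν 1 (n * y) *
          (2 * Real.pi * I * (2 * (Real.cos (2 * Real.pi * n * ((a.val : ℝ) / q)) : ℝ)))) =
          c n * Wk ν 1 (n * y) * (4 * Real.pi * I * τ) := by
        intro n
        have h3 := sum_cos χ hprim hquad hχ n
        have h4 : ∀ a : ZMod q, χ a * (C n * Wk ν 1 (n * y) *
          (2 * Real.pi * I * (2 * (Real.cos (2 * Real.pi * n * ((a.val : ℝ) / q)) : ℝ)))) =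
          C n * Wk ν 1 (n * y) * (2 * Real.pi * I) *
            (χ a * (2 * (Real.cos (2 * Real.pi * n * ((a.val : ℝ) / q)) : ℝ))) := by
          intro a
          ring
        rw [Finset.sum_congr rfl fun a _ => h4 a, ← Finset.mul_sum, h3, hcd]
        ring
      have h3 := h1.div_const (4 * Real.pi * I * τ)
      convert! h3 using 1
      funext n
      rw [h2 n, mul_div_cancel_right₀ _ hk]
  · -- odd characters
    obtain ⟨G, hG⟩ : ∃ G : ℝ → ℂ, G = fun y : ℝ => ∑ a : ZMod q, χ a *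
      fe φ (((a.val : ℝ) / q : ℝ) + y * I) := ⟨_, rfl⟩
    have hk : 2 * τ ≠ 0 := mul_ne_zero (by norm_num) hτ0
    refine main 0 (fun y => G y / (2 * τ)) ?_ ?_ ?_
    · refine ContinuousOn.div_const ?_ _
      rw [hG]
      exact continuousOn_finsetSum _ fun a _ => continuousOn_const.mul (cont_fe hsm _)
    · intro y hy
      rw [← neg_div]
      congr 1
      rw [hG]
      refine sum_inv χ hquad _ _ fun u => ?_
      obtain ⟨b, hb⟩ := unit_det u
      have h1 := fe_inv φ hinv _ b _ q hq hb (y * I) (by simpa using hy)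
      have h2 := fe_odd φ hodd ((((u⁻¹ : (ZMod q)ˣ) : ZMod q).val : ℝ) / q) y hy
      have hy0 : (y : ℂ) ≠ 0 := by exact_mod_cast hy.ne'
      have h3 : -(1 / ((q : ℂ) ^ 2 * (y * I))) = 1 / ((q : ℂ) ^ 2 * y) * I := by
        field_simp
        simp
      rw [sub_eq_add_neg, h3] at h1
      push_cast at h1 h2 ⊢
      rw [h1, h2]
    · intro y hy
      have h1 : HasSum (fun n : ℕ => ∑ a : ZMod q, χ a * (C n * W ν (n * y) *
          (2 * I * (Real.sin (2 * Real.pi * n * ((a.val : ℝ) / q)) : ℝ)))) (G y) := by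
        rw [hG]
        exact hasSum_sum fun a _ => (hexp _ y hy).mul_left _
      have h2 : ∀ n : ℕ, ∑ a : ZMod q, χ a * (C n * W ν (n * y) *
          (2 * I * (Real.sin (2 * Real.pi * n * ((a.val : ℝ) / q)) : ℝ))) =
          c n * Wk ν 0 (n * y) * (2 * τ) := by
        intro n
        have h3 := sum_sin χ hprim hquad hχ n
        have h4 : ∀ a : ZMod q, χ a * (C n * W ν (n * y) *
          (2 * I * (Real.sin (2 * Real.pi * n * ((a.val : ℝ) / q)) : ℝ))) =
          C n * W ν (n * y) *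
            (χ a * (2 * I * (Real.sin (2 * Real.pi * n * ((a.val : ℝ) / q)) : ℝ))) := by
          intro a
          ring
        rw [Finset.sum_congr rfl fun a _ => h4 a, ← Finset.mul_sum, h3, hcd, Wk]
        ring
      have h3 := h1.div_const (2 * τ)
      convert! h3 using 1
      funext n
      rw [h2 n, mul_div_cancel_right₀ _ hk]

end Pool.Agent.N855.Twist
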