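import Pool.Agent.N657.QR.Stm

set_option autoImplicit false
set_option linter.unusedSectionVars false

/-! # Project QR (helper657), subtask CPX (helper855): complex ground states -/

namespace Pool.Agent.N855.QR_CPX

open Filter Topology Pool.Agent.N657.QR

variable {V : Type} [Fintype V] [DecidableEq V]

theorem norm_sq_eq (z : ℂ) : ‖z‖ ^ 2 = z.re ^ 2 + z.im ^ 2 := by
  rw [Complex.sq_norm, Complex.normSq_apply]
  ring

theorem FE_of_le {ψ : (V → ℤ) → ℂ} {a : (V → ℤ) → ℝ} (h1 : Summable (fun n => ‖ψ n‖ ^ 2))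
    (h2 : Summable (fun n : V → ℤ => (∑ x, (n x : ℝ) ^ 2) * ‖ψ n‖ ^ 2)) (h : ∀ n, a n ^ 2 ≤ ‖ψ n‖ ^ 2) : FE a := by
  refine ⟨Summable.of_nonneg_of_le (fun n => sq_nonneg _) h h1, ?_⟩
  refine Summable.of_nonneg_of_le (fun n => ?_) (fun n => ?_) h2
  · exact mul_nonneg (Finset.sum_nonneg fun _ _ => sq_nonneg _) (sq_nonneg _)
  · exact mul_le_mul_of_nonneg_left (h n) (Finset.sum_nonneg fun _ _ => sq_nonneg _)

theorem re_FE {N : ℤ} {ψ : (V → ℤ) → ℂ} (h : IsState N ψ) : FE (fun n => (ψ n).re) :=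
  FE_of_le h.norm_one.summable h.finite_energy (fun n => by
    rw [norm_sq_eq]
    nlinarith [sq_nonneg (ψ n).im])

theorem im_FE {N : ℤ} {ψ : (V → ℤ) → ℂ} (h : IsState N ψ) : FE (fun n => (ψ n).im) :=
  FE_of_le h.norm_one.summable h.finite_energy (fun n => by
    rw [norm_sq_eq]
    nlinarith [sq_nonneg (ψ n).re])

theorem re_Sec {N : ℤ} {ψ : (V → ℤ) → ℂ} (h : IsState N ψ) : Sec N (fun n => (ψ n).re) := by
  intro n hn
  refine h.sector n fun h0 => hn ?_
  simp [h0]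

theorem im_Sec {N : ℤ} {ψ : (V → ℤ) → ℂ} (h : IsState N ψ) : Sec N (fun n => (ψ n).im) := by
  intro n hn
  refine h.sector n fun h0 => hn ?_
  simp [h0]

theorem nr_add {N : ℤ} {ψ : (V → ℤ) → ℂ} (h : IsState N ψ) :
    nr (fun n => (ψ n).re) + nr (fun n => (ψ n).im) = 1 := by
  unfold nr
  rw [← (re_FE h).1.tsum_add (im_FE h).1, ← h.norm_one.tsum_eq]
  exact tsum_congr fun n => (norm_sq_eq _).symm

theorem corr_re (hB : S_BAS) {N : ℤ} {ψ : (V → ℤ) → ℂ} (h : IsState N ψ) (x y : V) :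
    (corr x y ψ).re = cr x y (fun n => (ψ n).re) + cr x y (fun n => (ψ n).im) := by
  have hs : Summable (fun n : V → ℤ => (starRingEnd ℂ) (ψ (n + Pi.single x 1 - Pi.single y 1)) * ψ n) := by
    apply Summable.of_norm
    have := hB.crsum x y (fun n => ‖ψ n‖) h.norm_one.summable
    refine this.congr fun n => ?_
    rw [norm_mul, RCLike.norm_conj]
    rfl
  unfold corr cr
  rw [Complex.re_tsum hs, ← (hB.crsum x y _ (re_FE h).1).tsum_add (hB.crsum x y _ (im_FE h).1)]
  refine tsum_congr fun n => ?_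
  rw [Complex.mul_re, Complex.conj_re, Complex.conj_im]
  unfold hp dl
  ring

theorem energy_eq (hB : S_BAS) {N : ℤ} {ψ : (V → ℤ) → ℂ} (h : IsState N ψ) (K : Matrix V V ℝ) (w : V → V → ℝ)
    (ν : V → ℝ) : energy K w ν ψ = FF K w ν (fun n => (ψ n).re) + FF K w ν (fun n => (ψ n).im) := by
  have e1 : (∑' n : V → ℤ, (∑ x, ∑ y, K x y * (((n x : ℝ) - ν x) * ((n y : ℝ) - ν y))) * ‖ψ n‖ ^ 2) =
      po K ν (fun n => (ψ n).re) + po K ν (fun n => (ψ n).im) := by
    unfold po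
    rw [← (hB.posum K ν _ (re_FE h)).tsum_add (hB.posum K ν _ (im_FE h))]
    refine tsum_congr fun n => ?_
    rw [norm_sq_eq]
    unfold pot
    ring
  unfold energy FF
  rw [e1]
  have e2 : ∑ x, ∑ y, w x y * (corr x y ψ).re = (∑ x, ∑ y, w x y * cr x y (fun n => (ψ n).re)) +
      ∑ x, ∑ y, w x y * cr x y (fun n => (ψ n).im) := by
    rw [← Finset.sum_add_distrib]
    refine Finset.sum_congr rfl fun x _ => ?_
    rw [← Finset.sum_add_distrib]
    refine Finset.sum_congr rfl fun y _ => ?_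
    rw [corr_re hB h]
    ring
  rw [e2]
  ring

theorem cr_smul (x y : V) (c : ℝ) (ψ : (V → ℤ) → ℝ) : cr x y (fun n => c * ψ n) = c ^ 2 * cr x y ψ := by
  unfold cr
  rw [← tsum_mul_left]
  refine tsum_congr fun n => ?_
  ring

/-- a real function with the energy of the ground state is a multiple of the ground state -/
theorem multiple (hB : S_BAS) (hU : S_UN) [Nonempty V] {K : Matrix V V ℝ} {w : V → V → ℝ} {ν : V → ℝ} {N : ℤ}
    {Φ : (V → ℤ) → ℝ} (hK : K.PosDef) (hw : ∀ x y, 0 ≤ w x y) (hC : Conn w) (hΦ : IsG K w ν N Φ)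
    {a : (V → ℤ) → ℝ} (ha : FE a) (hs : Sec N a) (he : FF K w ν a = en K w ν N * nr a) :
    ∃ α : ℝ, ∀ n, a n = α * Φ n := by
  have hnn : 0 ≤ nr a := tsum_nonneg fun n => sq_nonneg _
  rcases hnn.eq_or_lt with h0 | h0
  · refine ⟨0, fun n => ?_⟩
    have h1 : HasSum (fun n => a n ^ 2) 0 := by
      have := ha.1.hasSum
      rw [show (∑' n, a n ^ 2) = 0 from h0.symm] at this
      exact this
    have h2 := (hasSum_zero_iff_of_nonneg (fun n => sq_nonneg (a n))).1 h1
    have h3 := congrFun h2 n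
    simp only [Pi.zero_apply] at h3
    rw [zero_mul]
    exact pow_eq_zero_iff (two_ne_zero) |>.1 h3
  · set c : ℝ := 1 / Real.sqrt (nr a) with hc
    have hsq : 0 < Real.sqrt (nr a) := Real.sqrt_pos.2 h0
    have hc2 : c ^ 2 * nr a = 1 := by
      rw [hc, div_pow, Real.sq_sqrt h0.le, one_pow]
      field_simp
    have hG : IsG K w ν N (fun n => c * a n) := by
      refine ⟨⟨?_, ?_⟩, ?_, ?_, ?_⟩
      · refine (ha.1.mul_left (c ^ 2)).congr fun n => ?_
        ring
      · refine (ha.2.mul_left (c ^ 2)).congr fun n => ?_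
        ring
      · intro n hn
        exact hs n (right_ne_zero_of_mul hn)
      · rw [hB.nrsmul, hc2]
      · rw [hB.FFsmul, he]
        calc c ^ 2 * (en K w ν N * nr a) = en K w ν N * (c ^ 2 * nr a) := by ring
          _ = en K w ν N := by rw [hc2, mul_one]
    obtain ⟨-, h | h⟩ := hU K w ν N Φ _ hK hw hC hΦ hG
    · refine ⟨Real.sqrt (nr a), fun n => ?_⟩
      rw [← h n, hc]
      field_simp
    · refine ⟨-Real.sqrt (nr a), fun n => ?_⟩
      have h1 : Φ n = -(c * a n) := by rw [h n]; ring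
      rw [h1, hc]
      field_simp

theorem zero_FF (K : Matrix V V ℝ) (w : V → V → ℝ) (ν : V → ℝ) : FF K w ν (fun _ => 0) = 0 := by
  unfold FF po cr
  simp

theorem main (hB : S_BAS) (hL : S_LB) (hU : S_UN) : S_CPX := by
  intro V _ _ _ K w ν N Φ hK hw hC hΦ
  have hst : IsState N (fun n => (Φ n : ℂ)) := by
    refine ⟨?_, ?_, ?_⟩
    · intro n hn
      exact hΦ.2.1 n (fun h0 => hn (by simp [h0]))
    · have h1 := hΦ.1.1.hasSum
      rw [show (∑' n, Φ n ^ 2) = 1 from hΦ.2.2.1] at h1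
      have e : (fun n => ‖((Φ n : ℝ) : ℂ)‖ ^ 2) = fun n => Φ n ^ 2 := by
        funext n
        rw [norm_sq_eq]
        simp
      rw [e]
      exact h1
    · refine hΦ.1.2.congr fun n => ?_
      rw [norm_sq_eq]
      simp [Pool.Agent.N657.QR.sq]
  have hlow : ∀ φ : (V → ℤ) → ℂ, IsState N φ → en K w ν N ≤ energy K w ν φ := by
    intro φ hφ
    rw [energy_eq hB hφ]
    have h1 := hL K w ν N _ hK.posSemidef hw (re_FE hφ) (re_Sec hφ)
    have h2 := hL K w ν N _ hK.posSemidef hw (im_FE hφ) (im_Sec hφ)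
    have h3 := nr_add hφ
    calc en K w ν N = en K w ν N * (nr (fun n => (φ n).re) + nr (fun n => (φ n).im)) := by rw [h3, mul_one]
      _ = en K w ν N * nr (fun n => (φ n).re) + en K w ν N * nr (fun n => (φ n).im) := by ring
      _ ≤ _ := add_le_add h1 h2
  have hen : energy K w ν (fun n => (Φ n : ℂ)) = en K w ν N := by
    rw [energy_eq hB hst]
    simp only [Complex.ofReal_re, Complex.ofReal_im]
    rw [zero_FF, add_zero]
    exact hΦ.2.2.2
  refine ⟨⟨hst, fun φ hφ => by rw [hen]; exact hlow φ hφ⟩, ?_⟩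
  intro ψ hψ
  have hs := hψ.1
  have h1 := hL K w ν N _ hK.posSemidef hw (re_FE hs) (re_Sec hs)
  have h2 := hL K w ν N _ hK.posSemidef hw (im_FE hs) (im_Sec hs)
  have h3 := nr_add hs
  have h4 : FF K w ν (fun n => (ψ n).re) + FF K w ν (fun n => (ψ n).im) ≤ en K w ν N := by
    rw [← energy_eq hB hs, ← hen]
    exact hψ.2 _ hst
  have h5 : en K w ν N = en K w ν N * nr (fun n => (ψ n).re) + en K w ν N * nr (fun n => (ψ n).im) := by
    rw [← mul_add, h3, mul_one]
  obtain ⟨α, hα⟩ := multiple hB hU hK hw hC hΦ (re_FE hs) (re_Sec hs) (by linarith)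
  obtain ⟨β, hβ⟩ := multiple hB hU hK hw hC hΦ (im_FE hs) (im_Sec hs) (by linarith)
  have eα : (fun n => (ψ n).re) = fun n => α * Φ n := funext hα
  have eβ : (fun n => (ψ n).im) = fun n => β * Φ n := funext hβ
  have hab : α ^ 2 + β ^ 2 = 1 := by
    rw [eα, eβ, hB.nrsmul, hB.nrsmul, hΦ.2.2.1] at h3
    linarith
  refine ⟨⟨⟨α, β⟩, ?_, ?_⟩, ?_⟩
  · have : ‖(⟨α, β⟩ : ℂ)‖ ^ 2 = 1 := by
      rw [norm_sq_eq]
      exact hab
    exact (pow_eq_one_iff_of_nonneg (norm_nonneg _) two_ne_zero).1 this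
  · intro n
    apply Complex.ext
    · rw [Complex.mul_re, Complex.ofReal_re, Complex.ofReal_im]
      simp only [mul_zero, sub_zero]
      exact hα n
    · rw [Complex.mul_im, Complex.ofReal_re, Complex.ofReal_im]
      simp only [mul_zero, zero_add]
      exact hβ n
  · intro x y
    rw [corr_re hB hs, eα, eβ, cr_smul, cr_smul]
    calc α ^ 2 * cr x y Φ + β ^ 2 * cr x y Φ = (α ^ 2 + β ^ 2) * cr x y Φ := by ring
      _ = cr x y Φ := by rw [hab, one_mul]

end Pool.Agent.N855.QR_CPX
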