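import Pool.Agent.N849.Bessel

/-!
# Mellin transforms of series of K-Bessel functions with a functional equation of sign `-1`
-/

set_option autoImplicit false

namespace Pool.Agent.N855.Twist

open MeasureTheory Complex Set Filter Topology Asymptotics
open Pool.Agent.N849.Bessel

/-- `u ^ κ W(u)` -/
noncomputable def Wk (ν : ℂ) (κ : ℕ) (u : ℝ) : ℂ := (u : ℂ) ^ κ * W ν u

theorem Wk_decay (ν : ℂ) (κ N : ℕ) : ∃ D : ℝ, 0 ≤ D ∧ ∀ u : ℝ, 1 ≤ u →
    ‖Wk ν κ u‖ ≤ D * (u ^ N)⁻¹ := by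
  obtain ⟨C, hC, h⟩ := norm_W_le ν
  refine ⟨C * ((κ + 1 + N).factorial : ℝ), by positivity, fun u hu => ?_⟩
  have hu0 : 0 < u := by linarith
  have h1 := h u hu
  have h2 : u ^ (κ + 1 + N) / ((κ + 1 + N).factorial : ℝ) ≤ Real.exp u :=
    Real.pow_div_factorial_le_exp u hu0.le _
  have h3 : u ^ (κ + 1 + N) ≤ ((κ + 1 + N).factorial : ℝ) * Real.exp u := by
    rw [div_le_iff₀ (by positivity)] at h2
    linarith
  have h4 : Real.exp u * Real.exp (-(2 * Real.pi * u)) ≤ 1 := by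
    rw [← Real.exp_add, Real.exp_le_one_iff]
    nlinarith [Real.pi_gt_three]
  rw [Wk, norm_mul, norm_pow, Complex.norm_real, Real.norm_of_nonneg hu0.le, ← div_eq_mul_inv,
    le_div_iff₀ (by positivity)]
  calc u ^ κ * ‖W ν u‖ * u ^ N ≤ u ^ κ * (C * (u * Real.exp (-(2 * Real.pi * u)))) * u ^ N := by
        gcongr
    _ = C * (u ^ (κ + 1 + N) * Real.exp (-(2 * Real.pi * u))) := by ring
    _ ≤ C * ((((κ + 1 + N).factorial : ℝ) * Real.exp u) * Real.exp (-(2 * Real.pi * u))) := by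
        gcongr
    _ = C * ((κ + 1 + N).factorial : ℝ) * (Real.exp u * Real.exp (-(2 * Real.pi * u))) := by ring
    _ ≤ C * ((κ + 1 + N).factorial : ℝ) * 1 := by gcongr
    _ = _ := by ring

/-- the decay of the series -/
theorem P_decay (ν : ℂ) (κ : ℕ) (c : ℕ → ℂ) (B : ℝ) (hc : ∀ n, ‖c n‖ ≤ B) (hc0 : c 0 = 0)
    (P : ℝ → ℂ) (hsum : ∀ y : ℝ, 0 < y → HasSum (fun n : ℕ => c n * Wk ν κ (n * y)) (P y))
    (N : ℕ) (hN : 2 ≤ N) : ∃ D : ℝ, 0 ≤ D ∧ ∀ y : ℝ, 1 ≤ y → ‖P y‖ ≤ D * (y ^ N)⁻¹ := by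
  obtain ⟨D, hD, h⟩ := Wk_decay ν κ N
  have hB : 0 ≤ B := (norm_nonneg _).trans (hc 0)
  have hs : Summable fun n : ℕ => ((n : ℝ) ^ N)⁻¹ := Real.summable_nat_pow_inv.2 (by omega)
  refine ⟨B * D * ∑' n : ℕ, ((n : ℝ) ^ N)⁻¹, by positivity, fun y hy => ?_⟩
  have hy0 : 0 < y := by linarith
  rw [← (hsum y hy0).tsum_eq]
  have h1 : HasSum (fun n : ℕ => B * D * (y ^ N)⁻¹ * ((n : ℝ) ^ N)⁻¹)
      (B * D * (y ^ N)⁻¹ * ∑' n : ℕ, ((n : ℝ) ^ N)⁻¹) := hs.hasSum.mul_left _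
  refine (tsum_of_norm_bounded h1 fun n => ?_).trans (le_of_eq (by ring))
  rcases Nat.eq_zero_or_pos n with rfl | hn
  · rw [hc0, zero_mul, norm_zero]
    positivity
  · have hn1 : (1 : ℝ) ≤ n := by exact_mod_cast hn
    have h2 := h (n * y) (by nlinarith)
    rw [norm_mul]
    calc ‖c n‖ * ‖Wk ν κ (n * y)‖ ≤ B * (D * (((n : ℝ) * y) ^ N)⁻¹) := by
          gcongr
          exact hc n
      _ = _ := by
          rw [mul_pow, mul_inv]
          ring

/-- the value at the centre -/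
theorem mellin_center (q : ℕ) (hq : 0 < q) (P : ℝ → ℂ)
    (hfe : ∀ y : ℝ, 0 < y → P (1 / ((q : ℝ) ^ 2 * y)) = - P y) : mellin P 0 = 0 := by
  have hq0 : (0 : ℝ) < q := by exact_mod_cast hq
  set R : ℝ → ℂ := fun t => P ((q : ℝ)⁻¹ * t) with hR
  have h1 : mellin R 0 = mellin P 0 := by
    rw [hR, mellin_comp_mul_left P 0 (by positivity : 0 < (q : ℝ)⁻¹)]
    simp
  have h2 : mellin (fun t => R t⁻¹) 0 = mellin R 0 := by
    rw [mellin_comp_inv, neg_zero]
  have h3 : mellin (fun t => R t⁻¹) 0 = - mellin R 0 := by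
    have h4 : mellin (fun t => R t⁻¹) 0 = mellin (fun t => (-1 : ℂ) • R t) 0 := by
      unfold mellin
      refine setIntegral_congr_fun measurableSet_Ioi fun t ht => ?_
      have ht0 : 0 < t := ht
      have h5 := hfe ((q : ℝ)⁻¹ * t) (by positivity)
      have h6 : 1 / ((q : ℝ) ^ 2 * ((q : ℝ)⁻¹ * t)) = (q : ℝ)⁻¹ * t⁻¹ := by
        field_simp
      rw [h6] at h5
      simp only [hR]
      rw [h5]
      simp
    rw [h4, mellin_const_smul]
    simp
  have h4 : mellin R 0 = - mellin R 0 := h2.symm.trans h3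
  have h5 : mellin R 0 = 0 := by
    have : (2 : ℂ) * mellin R 0 = 0 := by linear_combination h4
    simpa using this
  rw [← h1, h5]

/-- the Mellin transform is entire -/
theorem mellin_entire (q : ℕ) (hq : 0 < q) (P : ℝ → ℂ) (hcont : ContinuousOn P (Ioi 0))
    (hfe : ∀ y : ℝ, 0 < y → P (1 / ((q : ℝ) ^ 2 * y)) = - P y)
    (hdec : ∀ N : ℕ, 2 ≤ N → ∃ D : ℝ, 0 ≤ D ∧ ∀ y : ℝ, 1 ≤ y → ‖P y‖ ≤ D * (y ^ N)⁻¹) :
    Differentiable ℂ (mellin P) := by
  intro s
  have hq0 : (0 : ℝ) < q := by exact_mod_cast hq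
  obtain ⟨N, hN⟩ : ∃ N : ℕ, |s.re| + 2 < N := exists_nat_gt _
  have hN2 : 2 ≤ N := by
    have : (2 : ℝ) < N := by linarith [abs_nonneg s.re]
    exact_mod_cast this.le
  obtain ⟨D, hD, h⟩ := hdec N hN2
  have habs := abs_lt.1 (by linarith : |s.re| < N)
  have hloc : LocallyIntegrableOn P (Ioi 0) :=
    hcont.locallyIntegrableOn measurableSet_Ioi
  refine mellin_differentiableAt_of_isBigO_rpow (a := N) (b := -N) hloc ?_ habs.2 ?_ habs.1
  · refine IsBigO.of_bound D ?_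
    filter_upwards [eventually_ge_atTop 1] with y hy
    rw [Real.norm_of_nonneg (by positivity), Real.rpow_neg (by linarith), Real.rpow_natCast]
    exact h y hy
  · refine IsBigO.of_bound (D * ((q : ℝ) ^ 2) ^ N) ?_
    have hmem : Ioc (0 : ℝ) (1 / (q : ℝ) ^ 2) ∈ 𝓝[>] (0 : ℝ) :=
      Ioc_mem_nhdsGT (by positivity)
    filter_upwards [hmem] with y hy
    obtain ⟨hy0, hy1⟩ := hy
    have h1 : 1 ≤ 1 / ((q : ℝ) ^ 2 * y) := by
      rw [le_div_iff₀ (by positivity)]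
      rw [le_div_iff₀ (by positivity)] at hy1
      linarith
    have h2 := h _ h1
    rw [hfe y hy0, norm_neg] at h2
    rw [neg_neg, Real.norm_of_nonneg (by positivity), Real.rpow_natCast]
    refine h2.trans (le_of_eq ?_)
    rw [one_div, inv_pow, inv_inv, mul_pow]
    ring

/-- the factor at infinity -/
noncomputable def Mf (ν s : ℂ) : ℂ :=
  (Real.pi : ℂ) ^ (-s) * Complex.Gamma ((s + ν) / 2) * Complex.Gamma ((s - ν) / 2) / 2

theorem mellin_Wk (ν : ℂ) (κ : ℕ) (s : ℂ) (hs : |ν.re| < s.re + κ) :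
    MellinConvergent (Wk ν κ) (s - 1 / 2) ∧ mellin (Wk ν κ) (s - 1 / 2) = Mf ν (s + κ) := by
  have h1 : |ν.re| < (s + κ).re := by
    simpa using hs
  obtain ⟨h2, h3⟩ := W_mellin ν (s + κ) h1
  have e : ∀ u ∈ Ioi (0 : ℝ), (u : ℂ) ^ (s - 1 / 2 - 1) • Wk ν κ u =
      W ν u * (u : ℂ) ^ (s + κ - 1 / 2 - 1) := by
    intro u hu
    have hu0 : (u : ℂ) ≠ 0 := by exact_mod_cast (ne_of_gt hu)
    have h4 : (u : ℂ) ^ (s + κ - 1 / 2 - 1) = (u : ℂ) ^ (s - 1 / 2 - 1) * (u : ℂ) ^ κ := by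
      rw [← Complex.cpow_natCast, ← Complex.cpow_add _ _ hu0]
      congr 1
      ring
    rw [h4, Wk, smul_eq_mul]
    ring
  constructor
  · unfold MellinConvergent
    exact h2.congr_fun (fun u hu => (e u hu).symm) measurableSet_Ioi
  · unfold mellin
    rw [setIntegral_congr_fun measurableSet_Ioi e, h3, Mf]

/-- the Mellin transform of the series -/
theorem mellin_series (ν : ℂ) (κ : ℕ) (c : ℕ → ℂ) (B : ℝ) (hc : ∀ n, ‖c n‖ ≤ B) (hc0 : c 0 = 0)
    (P : ℝ → ℂ) (hsum : ∀ y : ℝ, 0 < y → HasSum (fun n : ℕ => c n * Wk ν κ (n * y)) (P y))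
    (s : ℂ) (h1 : 3 / 2 < s.re) (h2 : |ν.re| < s.re + κ) :
    HasSum (fun n : ℕ => ((Real.sqrt n : ℂ) * c n * (n : ℂ) ^ (-s)) * Mf ν (s + κ))
      (mellin P (s - 1 / 2)) := by
  have hB : 0 ≤ B := (norm_nonneg _).trans (hc 0)
  obtain ⟨hconv, hval⟩ := mellin_Wk ν κ s h2
  set f : ℕ → ℝ → ℂ := fun n t => (t : ℂ) ^ (s - 1 / 2 - 1) * (c n * Wk ν κ (n * t)) with hf
  -- each term
  have hterm : ∀ n : ℕ, IntegrableOn (f n) (Ioi 0) ∧
      ∫ t in Ioi (0 : ℝ), f n t = ((Real.sqrt n : ℂ) * c n * (n : ℂ) ^ (-s)) * Mf ν (s + κ) := by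
    intro n
    rcases Nat.eq_zero_or_pos n with rfl | hn
    · have : f 0 = fun _ => 0 := by
        funext t
        simp [hf, hc0]
      rw [this]
      refine ⟨integrableOn_zero, ?_⟩
      simp
    · have hn0 : (0 : ℝ) < n := by exact_mod_cast hn
      have h3 : MellinConvergent (fun t => Wk ν κ ((n : ℝ) * t)) (s - 1 / 2) :=
        (MellinConvergent.comp_mul_left hn0).2 hconv
      have h4 := mellin_comp_mul_left (Wk ν κ) (s - 1 / 2) hn0
      have e : f n = fun t : ℝ => c n * ((t : ℂ) ^ (s - 1 / 2 - 1) • Wk ν κ ((n : ℝ) * t)) := by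
        funext t
        simp only [hf, smul_eq_mul]
        ring
      constructor
      · rw [e]
        exact h3.const_mul (c n)
      · have h5 : ∫ t in Ioi (0 : ℝ), f n t = c n * mellin (fun t => Wk ν κ ((n : ℝ) * t)) (s - 1 / 2) := by
          rw [e, mellin, integral_const_mul]
        rw [h5, h4, hval, smul_eq_mul]
        have hn0' : (n : ℂ) ≠ 0 := by exact_mod_cast hn.ne'
        have h6 : ((n : ℝ) : ℂ) ^ (-(s - 1 / 2)) = (Real.sqrt n : ℂ) * (n : ℂ) ^ (-s) := by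
          have h7 : (Real.sqrt n : ℂ) = (n : ℂ) ^ (1 / 2 : ℂ) := by
            rw [Real.sqrt_eq_rpow, Complex.ofReal_cpow hn0.le]
            push_cast
            rfl
          rw [h7, ← Complex.cpow_add _ _ hn0']
          congr 1
          ring
        rw [h6]
        ring
  -- norms
  have hnorm : ∀ n : ℕ, ∫ t in Ioi (0 : ℝ), ‖f n t‖ ≤
      (B * ∫ t in Ioi (0 : ℝ), ‖(t : ℂ) ^ (s - 1 / 2 - 1) • Wk ν κ t‖) *
        (1 / (n : ℝ) ^ (s.re - 1 / 2)) := by
    intro n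
    rcases Nat.eq_zero_or_pos n with rfl | hn
    · have : f 0 = fun _ => 0 := by
        funext t
        simp [hf, hc0]
      rw [this]
      simp only [norm_zero, integral_zero]
      have : 0 ≤ ∫ t in Ioi (0 : ℝ), ‖(t : ℂ) ^ (s - 1 / 2 - 1) • Wk ν κ t‖ :=
        integral_nonneg fun t => norm_nonneg _
      positivity
    · have hn0 : (0 : ℝ) < n := by exact_mod_cast hn
      set g : ℝ → ℝ := fun t => ‖(t : ℂ) ^ (s - 1 / 2 - 1) • Wk ν κ t‖ with hg
      have e : ∀ t ∈ Ioi (0 : ℝ), ‖f n t‖ = ‖c n‖ * (((n : ℝ) ^ (s.re - 1 / 2 - 1))⁻¹ * g (n * t)) := by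
        intro t ht
        have ht0 : 0 < t := ht
        have h3 : ‖((n * t : ℝ) : ℂ) ^ (s - 1 / 2 - 1)‖ =
            (n : ℝ) ^ (s.re - 1 / 2 - 1) * t ^ (s.re - 1 / 2 - 1) := by
          rw [Complex.norm_cpow_eq_rpow_re_of_pos (by positivity)]
          have : (s - 1 / 2 - 1).re = s.re - 1 / 2 - 1 := by simp
          rw [this, Real.mul_rpow hn0.le ht0.le]
        have h4 : ‖(t : ℂ) ^ (s - 1 / 2 - 1)‖ = t ^ (s.re - 1 / 2 - 1) := by
          rw [Complex.norm_cpow_eq_rpow_re_of_pos ht0]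
          have : (s - 1 / 2 - 1).re = s.re - 1 / 2 - 1 := by simp
          rw [this]
        simp only [hf, hg]
        rw [norm_smul, h3, norm_mul, norm_mul, h4]
        have : (n : ℝ) ^ (s.re - 1 / 2 - 1) ≠ 0 := by positivity
        field_simp
      rw [setIntegral_congr_fun measurableSet_Ioi e, integral_const_mul, integral_const_mul,
        integral_comp_mul_left_Ioi g 0 hn0, mul_zero, smul_eq_mul]
      have h5 : ((n : ℝ) ^ (s.re - 1 / 2 - 1))⁻¹ * ((n : ℝ)⁻¹ * ∫ t in Ioi (0 : ℝ), g t) =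
          (∫ t in Ioi (0 : ℝ), g t) * (1 / (n : ℝ) ^ (s.re - 1 / 2)) := by
        have h6 : (n : ℝ) ^ (s.re - 1 / 2) = (n : ℝ) ^ (s.re - 1 / 2 - 1) * n := by
          rw [← Real.rpow_add_one hn0.ne']
          congr 1
          ring
        rw [h6]
        field_simp
      rw [h5, mul_assoc]
      have h7 : 0 ≤ ∫ t in Ioi (0 : ℝ), g t := integral_nonneg fun t => norm_nonneg _
      gcongr
      exact hc n
  have hsm : Summable fun n : ℕ => ∫ t in Ioi (0 : ℝ), ‖f n t‖ := by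
    refine Summable.of_nonneg_of_le (fun n => integral_nonneg fun t => norm_nonneg _) hnorm ?_
    exact (Real.summable_one_div_nat_rpow.2 (by linarith)).mul_left _
  have h3 := MeasureTheory.hasSum_integral_of_summable_integral_norm
    (μ := volume.restrict (Ioi (0 : ℝ))) (F := f) (fun n => (hterm n).1) hsm
  have h4 : ∫ t in Ioi (0 : ℝ), ∑' n, f n t = mellin P (s - 1 / 2) := by
    unfold mellin
    refine setIntegral_congr_fun measurableSet_Ioi fun t ht => ?_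
    simp only [hf, smul_eq_mul]
    rw [tsum_mul_left, (hsum t ht).tsum_eq]
  rw [h4] at h3
  simp_rw [fun n => (hterm n).2] at h3
  exact h3

theorem Mf_ne_zero (ν s : ℂ) (hs : |ν.re| < s.re) : Mf ν s ≠ 0 := by
  have h3 := abs_lt.1 hs
  have ha : 0 < ((s + ν) / 2).re := by
    rw [Complex.div_ofNat_re, add_re]; linarith
  have hb : 0 < ((s - ν) / 2).re := by
    rw [Complex.div_ofNat_re, sub_re]; linarith
  have h4 : (Real.pi : ℂ) ^ (-s) ≠ 0 := by
    rw [Complex.cpow_ne_zero_iff]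
    left
    exact_mod_cast Real.pi_ne_zero
  exact div_ne_zero (mul_ne_zero (mul_ne_zero h4 (Complex.Gamma_ne_zero_of_re_pos ha))
    (Complex.Gamma_ne_zero_of_re_pos hb)) two_ne_zero

/-- the entire inverse of the factor at infinity -/
noncomputable def Mi (ν s : ℂ) : ℂ :=
  2 * (Real.pi : ℂ) ^ s * (Complex.Gamma ((s + ν) / 2))⁻¹ * (Complex.Gamma ((s - ν) / 2))⁻¹

theorem Mi_entire (ν : ℂ) : Differentiable ℂ (Mi ν) := by
  have hG : Differentiable ℂ fun s : ℂ => (Complex.Gamma s)⁻¹ := differentiable_one_div_Gamma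
  have h1 : Differentiable ℂ fun s : ℂ => (Complex.Gamma ((s + ν) / 2))⁻¹ :=
    hG.comp (by fun_prop)
  have h2 : Differentiable ℂ fun s : ℂ => (Complex.Gamma ((s - ν) / 2))⁻¹ :=
    hG.comp (by fun_prop)
  have h3 : Differentiable ℂ fun s : ℂ => (Real.pi : ℂ) ^ s := by
    intro s
    exact (differentiableAt_id).const_cpow (Or.inl (by exact_mod_cast Real.pi_ne_zero))
  exact (((differentiable_const _).mul h3).mul h1).mul h2

theorem Mf_mul_Mi (ν s : ℂ) (hs : |ν.re| < s.re) : Mf ν s * Mi ν s = 1 := by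
  have h3 := abs_lt.1 hs
  have ha : 0 < ((s + ν) / 2).re := by
    rw [Complex.div_ofNat_re, add_re]; linarith
  have hb : 0 < ((s - ν) / 2).re := by
    rw [Complex.div_ofNat_re, sub_re]; linarith
  have h4 : (Real.pi : ℂ) ^ s ≠ 0 := by
    rw [Complex.cpow_ne_zero_iff]
    left
    exact_mod_cast Real.pi_ne_zero
  have h5 := Complex.Gamma_ne_zero_of_re_pos ha
  have h6 := Complex.Gamma_ne_zero_of_re_pos hb
  rw [Mf, Mi, Complex.cpow_neg]
  field_simp

/-- **The analytic part.** -/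
theorem analytic_part (ν : ℂ) (κ : ℕ) (c : ℕ → ℂ) (B : ℝ) (hc : ∀ n, ‖c n‖ ≤ B) (hc0 : c 0 = 0)
    (q : ℕ) (hq : 0 < q) (P : ℝ → ℂ) (hcont : ContinuousOn P (Ioi 0))
    (hfe : ∀ y : ℝ, 0 < y → P (1 / ((q : ℝ) ^ 2 * y)) = - P y)
    (hsum : ∀ y : ℝ, 0 < y → HasSum (fun n : ℕ => c n * Wk ν κ (n * y)) (P y)) :
    ∃ F : ℂ → ℂ, Differentiable ℂ F ∧
      (∀ s : ℂ, 3 / 2 < s.re → HasSum (fun n : ℕ => (Real.sqrt n : ℂ) * c n * (n : ℂ) ^ (-s)) (F s)) ∧
      F (1 / 2) = 0 := by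
  have hent : Differentiable ℂ (mellin P) :=
    mellin_entire q hq P hcont hfe (fun N hN => P_decay ν κ c B hc hc0 P hsum N hN)
  obtain ⟨F, hF⟩ : ∃ F : ℂ → ℂ, F = fun s => mellin P (s - 1 / 2) * Mi ν (s + κ) := ⟨_, rfl⟩
  have hFd : Differentiable ℂ F := by
    rw [hF]
    exact (hent.comp (by fun_prop)).mul ((Mi_entire ν).comp (by fun_prop))
  -- the Dirichlet series
  obtain ⟨a, ha⟩ : ∃ a : ℕ → ℂ, a = fun n : ℕ => (Real.sqrt n : ℂ) * c n := ⟨_, rfl⟩
  have habs : LSeries.abscissaOfAbsConv a ≤ ((1 / 2 : ℝ) : EReal) + 1 := by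
    refine LSeries.abscissaOfAbsConv_le_of_le_const_mul_rpow ⟨B, fun n hn => ?_⟩
    rw [ha]
    simp only
    rw [norm_mul, Complex.norm_real, Real.norm_of_nonneg (Real.sqrt_nonneg _),
      ← Real.sqrt_eq_rpow, mul_comm]
    gcongr
    exact hc n
  have habs' : ∀ s : ℂ, 3 / 2 < s.re → LSeries.abscissaOfAbsConv a < s.re := by
    intro s hs
    refine habs.trans_lt ?_
    have : ((1 / 2 : ℝ) : EReal) + 1 = ((3 / 2 : ℝ) : EReal) := by
      rw [← EReal.coe_one, ← EReal.coe_add]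
      norm_num
    rw [this]
    exact_mod_cast hs
  have hterm : ∀ (s : ℂ) (n : ℕ), LSeries.term a s n = (Real.sqrt n : ℂ) * c n * (n : ℂ) ^ (-s) := by
    intro s n
    rcases Nat.eq_zero_or_pos n with rfl | hn
    · simp
    · rw [LSeries.term_of_ne_zero hn.ne', ha, Complex.cpow_neg, div_eq_mul_inv]
  have hL : ∀ s : ℂ, 3 / 2 < s.re →
      HasSum (fun n : ℕ => (Real.sqrt n : ℂ) * c n * (n : ℂ) ^ (-s)) (LSeries a s) := by
    intro s hs
    have h1 : LSeriesSummable a s := LSeriesSummable_of_abscissaOfAbsConv_lt_re (habs' s hs)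
    have h2 : HasSum (LSeries.term a s) (LSeries a s) := h1.hasSum
    have h3 : LSeries.term a s = fun n : ℕ => (Real.sqrt n : ℂ) * c n * (n : ℂ) ^ (-s) :=
      funext (hterm s)
    rwa [h3] at h2
  -- the identity theorem
  set U : Set ℂ := {s | 3 / 2 < s.re} with hU
  have hUpre : IsPreconnected U := (convex_halfSpace_re_gt (3 / 2)).isPreconnected
  have hFa : AnalyticOnNhd ℂ F U := fun s _ => hFd.analyticAt s
  have hLa : AnalyticOnNhd ℂ (LSeries a) U := fun s hs => LSeries_analyticOnNhd a s (habs' s hs)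
  set A : ℝ := max (3 / 2) |ν.re| + 1 with hA
  have hA1 : 3 / 2 < A := by
    have := le_max_left (3 / 2 : ℝ) |ν.re|
    linarith
  have hA2 : |ν.re| < A := by
    have := le_max_right (3 / 2 : ℝ) |ν.re|
    linarith
  have hbig : ∀ s : ℂ, 3 / 2 < s.re → |ν.re| < s.re → F s = LSeries a s := by
    intro s h1 h2
    have hκ : (0 : ℝ) ≤ κ := Nat.cast_nonneg κ
    have h3 := mellin_series ν κ c B hc hc0 P hsum s h1 (by linarith)
    have h4 : |ν.re| < (s + κ).re := by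
      simp only [add_re, natCast_re]
      linarith
    have h5 := h3.mul_right (Mi ν (s + κ))
    have h6 : (fun n : ℕ => (Real.sqrt n : ℂ) * c n * (n : ℂ) ^ (-s) * Mf ν (s + κ) * Mi ν (s + κ)) =
        fun n : ℕ => (Real.sqrt n : ℂ) * c n * (n : ℂ) ^ (-s) := by
      funext n
      rw [mul_assoc, Mf_mul_Mi ν _ h4, mul_one]
    rw [h6] at h5
    rw [hF]
    exact h5.unique (hL s h1)
  have hev : F =ᶠ[𝓝 (A : ℂ)] LSeries a := by
    have h1 : {s : ℂ | 3 / 2 < s.re} ∈ 𝓝 (A : ℂ) :=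
      (isOpen_lt continuous_const continuous_re).mem_nhds (by simpa using hA1)
    have h2 : {s : ℂ | |ν.re| < s.re} ∈ 𝓝 (A : ℂ) :=
      (isOpen_lt continuous_const continuous_re).mem_nhds (by simpa using hA2)
    filter_upwards [h1, h2] with s hs1 hs2
    exact hbig s hs1 hs2
  have hEq : EqOn F (LSeries a) U :=
    hFa.eqOn_of_preconnected_of_eventuallyEq hLa hUpre (show (A : ℂ) ∈ U by simpa [hU] using hA1) hev
  refine ⟨F, hFd, fun s hs => ?_, ?_⟩
  · rw [hEq hs]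
    exact hL s hs
  · rw [hF]
    simp only
    rw [sub_self, mellin_center q hq P hfe, zero_mul]

end Pool.Agent.N855.Twist
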