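import Pool.Agent.N855.TwistA
import Pool.Agent.N849.Hecke

/-!
# Quadratic twists of an odd function of level one
-/

set_option autoImplicit false

namespace Pool.Agent.N855.Twist

open MeasureTheory Complex Set Filter Topology MatrixGroups
open UpperHalfPlane hiding I
open scoped ContDiff
open Pool.Agent.N849.Bessel (W)
open Pool.Agent.N849.Hecke (heckeOp)

/-- the extension of `φ` to the complex plane -/
noncomputable def fe (φ : ℍ → ℂ) (ζ : ℂ) : ℂ := φ (ofComplex ζ)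

/-- the derivative in the direction of the real axis -/
noncomputable def De (φ : ℍ → ℂ) (ζ : ℂ) : ℂ := fderiv ℝ (fe φ) ζ 1

theorem fe_coe (φ : ℍ → ℂ) (z : ℍ) : fe φ (z : ℂ) = φ z := by
  rw [fe, ofComplex_apply]

theorem fe_inv (φ : ℍ → ℂ) (hinv : ∀ (γ : SL(2, ℤ)) (z : ℍ), φ (γ • z) = φ z)
    (a b d : ℤ) (q : ℕ) (hq : 0 < q) (hdet : a * d - b * q = 1) (w : ℂ) (hw : 0 < w.im) :
    fe φ (a / q - 1 / ((q : ℂ) ^ 2 * w)) = fe φ (-(d / q : ℂ) + w) := by
  have hq0 : (q : ℂ) ≠ 0 := by exact_mod_cast hq.ne'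
  have hw0 : w ≠ 0 := by
    rintro rfl
    simp at hw
  have him : 0 < (-(d / q : ℂ) + w).im := by
    have : (-(d / q : ℂ) + w).im = w.im := by
      have : ((d : ℂ) / (q : ℂ)).im = 0 := by
        rw [Complex.div_natCast_im]
        simp
      simp [this]
    rw [this]
    exact hw
  obtain ⟨z, hz⟩ : ∃ z : ℍ, (z : ℂ) = -(d / q : ℂ) + w := ⟨⟨_, him⟩, rfl⟩
  obtain ⟨γ, hγ⟩ : ∃ γ : SL(2, ℤ), γ = ⟨!![a, b; (q : ℤ), d], by
      rw [Matrix.det_fin_two_of]; linarith⟩ := ⟨_, rfl⟩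
  have h1 : ((γ • z : ℍ) : ℂ) = a / q - 1 / ((q : ℂ) ^ 2 * w) := by
    rw [coe_specialLinearGroup_apply, hγ, hz]
    have hdet' : (a : ℂ) * d - b * q = 1 := by exact_mod_cast hdet
    simp only [Matrix.of_apply, Matrix.cons_val', Matrix.cons_val_zero,
      Matrix.cons_val_one, Matrix.cons_val_fin_one, algebraMap_int_eq, eq_intCast, Int.cast_natCast,
      Complex.ofReal_intCast, Complex.ofReal_natCast]
    have h2 : (q : ℂ) * (-(d / q : ℂ) + w) + d = q * w := by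
      field_simp
      ring
    rw [h2]
    field_simp
    linear_combination (-1 : ℂ) * hdet'
  rw [← h1, fe_coe, hinv γ z, ← hz, fe_coe]

theorem fe_odd (φ : ℍ → ℂ) (hodd : ∀ z : ℍ, φ (J • z) = - φ z) (x y : ℝ) (hy : 0 < y) :
    fe φ (-(x : ℂ) + y * I) = - fe φ (x + y * I) := by
  obtain ⟨z, hz⟩ : ∃ z : ℍ, (z : ℂ) = x + y * I := ⟨⟨x + y * I, by simpa using hy⟩, rfl⟩
  have h1 : ((J • z : ℍ) : ℂ) = -(x : ℂ) + y * I := by
    rw [coe_J_smul, hz]
    simp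
    ring
  rw [← h1, fe_coe, hodd, ← hz, fe_coe]

section smooth

variable {φ : ℍ → ℂ} (hsm : ContDiffOn ℝ ∞ (fun ζ : ℂ => φ (ofComplex ζ)) {ζ | 0 < ζ.im})

theorem isOpen_uhp : IsOpen {ζ : ℂ | 0 < ζ.im} := isOpen_lt continuous_const continuous_im

include hsm in
theorem fe_diff (ζ : ℂ) (hζ : 0 < ζ.im) : DifferentiableAt ℝ (fe φ) ζ :=
  (hsm.differentiableOn (by simp)).differentiableAt (isOpen_uhp.mem_nhds hζ)

include hsm in
/-- the chain rule along a real curve -/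
theorem fe_chain (c : ℝ → ℂ) (c' : ℝ) (t : ℝ) (hc : HasDerivAt c (c' : ℂ) t) (him : 0 < (c t).im) :
    HasDerivAt (fun s => fe φ (c s)) (c' * De φ (c t)) t := by
  have h1 := (fe_diff hsm (c t) him).hasFDerivAt
  have h2 := h1.comp_hasDerivAt t hc
  have h3 : (fderiv ℝ (fe φ) (c t)) (c' : ℂ) = c' * De φ (c t) := by
    have : (c' : ℂ) = c' • (1 : ℂ) := by simp
    rw [this, map_smul, De, real_smul]
    simp
  rw [h3] at h2
  exact h2

include hsm in
theorem De_odd (hodd : ∀ z : ℍ, φ (J • z) = - φ z) (x y : ℝ) (hy : 0 < y) :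
    De φ (-(x : ℂ) + y * I) = De φ (x + y * I) := by
  have h1 : HasDerivAt (fun t : ℝ => -((t : ℝ) : ℂ) + y * I) ((-1 : ℝ) : ℂ) x := by
    have := (((hasDerivAt_id x).ofReal_comp).neg).add_const ((y : ℂ) * I)
    simpa using this
  have h2 : HasDerivAt (fun t : ℝ => ((t : ℝ) : ℂ) + y * I) ((1 : ℝ) : ℂ) x := by
    have := ((hasDerivAt_id x).ofReal_comp).add_const ((y : ℂ) * I)
    simpa using this
  have h3 := fe_chain hsm _ _ x h1 (by simpa using hy)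
  have h4 := (fe_chain hsm _ _ x h2 (by simpa using hy)).neg
  have h5 : (fun t : ℝ => fe φ (-((t : ℝ) : ℂ) + y * I)) = fun t : ℝ => - fe φ ((t : ℂ) + y * I) := by
    funext t
    exact fe_odd φ hodd t y hy
  rw [h5] at h3
  have h6 := h3.unique h4
  push_cast at h6
  linear_combination (-1 : ℂ) * h6

include hsm in
theorem De_inv (hinv : ∀ (γ : SL(2, ℤ)) (z : ℍ), φ (γ • z) = φ z)
    (a b d : ℤ) (q : ℕ) (hq : 0 < q) (hdet : a * d - b * q = 1) (y : ℝ) (hy : 0 < y) :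
    De φ (a / q + (1 / ((q : ℝ) ^ 2 * y) : ℝ) * I) =
      -((q : ℂ) ^ 2 * (y : ℂ) ^ 2) * De φ (-(d / q : ℂ) + y * I) := by
  have hq0 : (q : ℂ) ≠ 0 := by exact_mod_cast hq.ne'
  have hqr : (0 : ℝ) < q := by exact_mod_cast hq
  have hy0 : (y : ℂ) ≠ 0 := by exact_mod_cast hy.ne'
  have hyI : (y : ℂ) * I ≠ 0 := mul_ne_zero hy0 I_ne_zero
  obtain ⟨c, hcd⟩ : ∃ c : ℝ → ℂ, c = fun t : ℝ => (a / q : ℂ) - 1 / ((q : ℂ) ^ 2 * ((t : ℂ) + y * I)) :=
    ⟨_, rfl⟩
  have hc0 : c 0 = a / q + (1 / ((q : ℝ) ^ 2 * y) : ℝ) * I := by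
    rw [hcd]
    push_cast
    have : (0 : ℂ) + y * I = y * I := zero_add _
    rw [this]
    field_simp
    ring_nf
    simp
    ring
  have hder : HasDerivAt c ((-(1 / ((q : ℝ) ^ 2 * y ^ 2)) : ℝ) : ℂ) 0 := by
    have h1 : HasDerivAt (fun t : ℝ => (q : ℂ) ^ 2 * ((t : ℂ) + y * I)) ((q : ℂ) ^ 2 * 1) 0 := by
      have := (((hasDerivAt_id (0 : ℝ)).ofReal_comp).add_const ((y : ℂ) * I)).const_mul ((q : ℂ) ^ 2)
      simpa using this
    have h2 := (h1.inv (by simp [hq0, hy0])).const_sub (a / q : ℂ)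
    rw [hcd]
    convert! h2 using 1
    · funext t
      rw [one_div]
      rfl
    · push_cast
      have hI : (I : ℂ) ^ 2 = -1 := I_sq
      rw [zero_add, mul_one, mul_pow, mul_pow, hI]
      field_simp
  have him : 0 < (c 0).im := by
    rw [hc0]
    have h1 : ((a : ℂ) / (q : ℂ)).im = 0 := by
      rw [Complex.div_natCast_im]
      simp
    have h2 : 0 < 1 / ((q : ℝ) ^ 2 * y) := by positivity
    have h3 : (((a : ℂ) / (q : ℂ)) + ((1 / ((q : ℝ) ^ 2 * y) : ℝ) : ℂ) * Complex.I).im = 1 / ((q : ℝ) ^ 2 * y) := by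
      rw [add_im, h1, zero_add, im_ofReal_mul, Complex.I_im, mul_one]
    rw [h3]
    exact h2
  have h3 := fe_chain hsm c _ 0 hder him
  have h4 : HasDerivAt (fun t : ℝ => -(d / q : ℂ) + (t + y * I)) ((1 : ℝ) : ℂ) 0 := by
    have := (((hasDerivAt_id (0 : ℝ)).ofReal_comp).add_const ((y : ℂ) * I)).const_add (-(d / q : ℂ))
    simpa using this
  have him2 : 0 < (-(d / q : ℂ) + (((0 : ℝ) : ℂ) + y * I)).im := by
    have h1 : ((d : ℂ) / (q : ℂ)).im = 0 := by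
      rw [Complex.div_natCast_im]
      simp
    simp [h1, hy]
  have h5 := fe_chain hsm _ _ 0 h4 him2
  have h6 : (fun t : ℝ => fe φ (c t)) = fun t : ℝ => fe φ (-(d / q : ℂ) + (t + y * I)) := by
    funext t
    rw [hcd]
    exact fe_inv φ hinv a b d q hq hdet (t + y * I) (by simpa using hy)
  rw [h6] at h3
  have h7 := h3.unique h5
  rw [hc0] at h7
  push_cast at h7 ⊢
  rw [zero_add] at h7
  have h8 : (q : ℂ) ^ 2 * (y : ℂ) ^ 2 ≠ 0 := by positivity
  rw [one_mul] at h7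
  rw [← h7]
  field_simp

end smooth

end Pool.Agent.N855.Twist
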