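import Pool.Agent.N855.TwistB

/-!
# Quadratic twists: sums over residue classes
-/

set_option autoImplicit false

namespace Pool.Agent.N855.Twist

open MeasureTheory Complex Set Filter Topology MatrixGroups
open UpperHalfPlane hiding I
open scoped ContDiff
open Pool.Agent.N849.Bessel (W)

section arith

variable {q : ℕ} [NeZero q] (χ : DirichletCharacter ℂ q)

omit [NeZero q] in
theorem inv_eq_self (hquad : χ ^ 2 = 1) : χ⁻¹ = χ := by
  rw [inv_eq_iff_mul_eq_one, ← sq, hquad]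

theorem tau_ne_zero (hprim : χ.IsPrimitive) : gaussSum χ (ZMod.stdAddChar (N := q)) ≠ 0 := by
  intro h
  have h1 : ZMod.dft (χ : ZMod q → ℂ) = 0 := by
    funext k
    rw [hprim.fourierTransform_eq_inv_mul_gaussSum, h, mul_zero]
    rfl
  have h2 : (χ : ZMod q → ℂ) = 0 := by
    rwa [LinearEquiv.map_eq_zero_iff] at h1
  have h3 := congr_fun h2 1
  simp at h3

/-- the sum over residues against an additive character -/
theorem sum_exp (hprim : χ.IsPrimitive) (hquad : χ ^ 2 = 1) (n : ℤ) :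
    ∑ a : ZMod q, χ a * Complex.exp (2 * Real.pi * I * (n * a.val / q)) =
      χ n * gaussSum χ (ZMod.stdAddChar (N := q)) := by
  have h1 := gaussSum_mulShift_of_isPrimitive (ZMod.stdAddChar (N := q)) hprim (n : ZMod q)
  rw [inv_eq_self χ hquad] at h1
  rw [← h1, gaussSum]
  refine Finset.sum_congr rfl fun a _ => ?_
  congr 1
  rw [AddChar.mulShift_apply]
  have : (n : ZMod q) * a = ((n * a.val : ℤ) : ZMod q) := by
    push_cast
    simp
  rw [this, ZMod.stdAddChar_coe]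
  congr 1
  push_cast
  ring

theorem sum_sin (hprim : χ.IsPrimitive) (hquad : χ ^ 2 = 1) (hχ : χ.Odd) (n : ℕ) :
    ∑ a : ZMod q, χ a * (2 * I * (Real.sin (2 * Real.pi * n * ((a.val : ℝ) / q)) : ℝ)) =
      2 * χ n * gaussSum χ (ZMod.stdAddChar (N := q)) := by
  have h1 := sum_exp χ hprim hquad n
  have h2 := sum_exp χ hprim hquad (-n)
  have h3 : χ ((-(n : ℤ) : ℤ) : ZMod q) = - χ n := by
    push_cast
    exact DirichletCharacter.Odd.eval_neg χ (n : ZMod q) hχ
  rw [h3] at h2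
  have h4 : ∀ a : ZMod q, χ a * (2 * I * (Real.sin (2 * Real.pi * n * ((a.val : ℝ) / q)) : ℝ)) =
      χ a * Complex.exp (2 * Real.pi * I * (((n : ℤ) : ℂ) * a.val / q)) -
      χ a * Complex.exp (2 * Real.pi * I * (((-(n : ℤ) : ℤ) : ℂ) * a.val / q)) := by
    intro a
    rw [← mul_sub]
    congr 1
    rw [Complex.ofReal_sin, Complex.sin]
    push_cast
    have e1 : -(2 * (Real.pi : ℂ) * n * ((a.val : ℂ) / q)) * I = 2 * Real.pi * I * (-n * a.val / q) := by ring
    have e2 : (2 * (Real.pi : ℂ) * n * ((a.val : ℂ) / q)) * I = 2 * Real.pi * I * (n * a.val / q) := by ring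
    rw [e1, e2]
    linear_combination (cexp (2 * Real.pi * I * (-n * a.val / q)) - cexp (2 * Real.pi * I * (n * a.val / q))) * I_sq
  rw [Finset.sum_congr rfl fun a _ => h4 a, Finset.sum_sub_distrib, h1, h2]
  push_cast
  ring

theorem sum_cos (hprim : χ.IsPrimitive) (hquad : χ ^ 2 = 1) (hχ : χ.Even) (n : ℕ) :
    ∑ a : ZMod q, χ a * (2 * (Real.cos (2 * Real.pi * n * ((a.val : ℝ) / q)) : ℝ)) =
      2 * χ n * gaussSum χ (ZMod.stdAddChar (N := q)) := by
  have h1 := sum_exp χ hprim hquad n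
  have h2 := sum_exp χ hprim hquad (-n)
  have h3 : χ ((-(n : ℤ) : ℤ) : ZMod q) = χ n := by
    push_cast
    exact DirichletCharacter.Even.eval_neg χ (n : ZMod q) hχ
  rw [h3] at h2
  have h4 : ∀ a : ZMod q, χ a * (2 * (Real.cos (2 * Real.pi * n * ((a.val : ℝ) / q)) : ℝ)) =
      χ a * Complex.exp (2 * Real.pi * I * (((n : ℤ) : ℂ) * a.val / q)) +
      χ a * Complex.exp (2 * Real.pi * I * (((-(n : ℤ) : ℤ) : ℂ) * a.val / q)) := by
    intro a
    rw [← mul_add]
    congr 1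
    rw [Complex.ofReal_cos, Complex.cos]
    push_cast
    have e1 : -(2 * (Real.pi : ℂ) * n * ((a.val : ℂ) / q)) * I = 2 * Real.pi * I * (-n * a.val / q) := by ring
    have e2 : (2 * (Real.pi : ℂ) * n * ((a.val : ℂ) / q)) * I = 2 * Real.pi * I * (n * a.val / q) := by ring
    rw [e1, e2]
    ring
  rw [Finset.sum_congr rfl fun a _ => h4 a, Finset.sum_add_distrib, h1, h2]
  push_cast
  ring

theorem sum_inv (hquad : χ ^ 2 = 1) (h h' : ZMod q → ℂ)
    (hh : ∀ u : (ZMod q)ˣ, h u = - h' (u⁻¹ : (ZMod q)ˣ)) :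
    ∑ a, χ a * h a = - ∑ a, χ a * h' a := by
  have key : ∀ g : ZMod q → ℂ, ∑ a, χ a * g a = ∑ u : (ZMod q)ˣ, χ u * g u := by
    intro g
    symm
    refine Finset.sum_of_injOn (fun u : (ZMod q)ˣ => (u : ZMod q)) (Units.val_injective.injOn)
      (by simp) ?_ (by simp)
    intro a _ ha
    have : ¬ IsUnit a := by
      rintro ⟨u, rfl⟩
      exact ha ⟨u, by simp⟩
    rw [χ.map_nonunit this, zero_mul]
  have hχinv : ∀ u : (ZMod q)ˣ, χ ((u⁻¹ : (ZMod q)ˣ) : ZMod q) = χ u := by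
    intro u
    have h1 : χ ((u⁻¹ : (ZMod q)ˣ) : ZMod q) * χ u = 1 := by
      rw [← map_mul, Units.inv_mul, map_one]
    have h2 : χ u * χ u = 1 := by
      have : (χ ^ 2) u = 1 := by
        rw [hquad]
        simp
      rwa [MulChar.pow_apply_coe, sq] at this
    have h3 : χ u ≠ 0 := by
      intro h0
      rw [h0, mul_zero] at h2
      exact zero_ne_one h2
    exact mul_right_cancel₀ h3 (h1.trans h2.symm)
  rw [key, key, ← Finset.sum_neg_distrib,
    ← Equiv.sum_comp (Equiv.inv (ZMod q)ˣ) fun u : (ZMod q)ˣ => -(χ u * h' u)]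
  refine Finset.sum_congr rfl fun u _ => ?_
  rw [hh u, Equiv.inv_apply, hχinv]
  ring

theorem unit_det (u : (ZMod q)ˣ) : ∃ b : ℤ,
    ((u : ZMod q).val : ℤ) * (((u⁻¹ : (ZMod q)ˣ) : ZMod q).val : ℤ) - b * q = 1 := by
  have h : (((((u : ZMod q).val : ℤ) * (((u⁻¹ : (ZMod q)ˣ) : ZMod q).val : ℤ) - 1 : ℤ)) : ZMod q) = 0 := by
    push_cast
    rw [ZMod.natCast_zmod_val, ZMod.natCast_zmod_val, Units.mul_inv, sub_self]
  rw [ZMod.intCast_zmod_eq_zero_iff_dvd] at h
  obtain ⟨b, hb⟩ := h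
  exact ⟨b, by linarith⟩

end arith

end Pool.Agent.N855.Twist
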